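import Pool.Agent.K1H35.LK.Defs

/-!
# All ways to open a closed braid are related (`S_CUT`)
-/

set_option autoImplicit false

namespace Pool.Agent.K1H47.LK

open Pool.Agent.K1H35.LK

/-- `g` respects the order of the components -/
def Gd (m k : ℕ) (b g : Br) : Prop :=
  g ∈ BN (m + k) ∧ ∀ j < m, (pm b).SameCycle ((pm g)⁻¹ j) j

variable {m k : ℕ} {b g : Br}

theorem val_conj (hR : S_REAL) (hb : Val m ⟨k, b⟩) (hg : Gd m k b g) :
    Val m ⟨k, g * b * g⁻¹⟩ := by
  obtain ⟨R1, R2, -⟩ := hR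
  refine ⟨mul_mem (mul_mem hg.1 hb.1) (inv_mem hg.1), ?_, ?_⟩
  · intro a ha
    have h1 : (pm g)⁻¹ a < m + k := by
      have := R2 (m + k) g⁻¹ (inv_mem hg.1) a ha
      rwa [map_inv] at this
    obtain ⟨i, hi, hs⟩ := hb.2.1 _ h1
    refine ⟨i, hi, ?_⟩
    show (pm (g * b * g⁻¹)).SameCycle i a
    rw [map_mul, map_mul, map_inv, Equiv.Perm.sameCycle_conj]
    exact (hg.2 i hi).trans hs
  · intro i hi j hj hs
    have hs' : (pm (g * b * g⁻¹)).SameCycle i j := hs
    rw [map_mul, map_mul, map_inv, Equiv.Perm.sameCycle_conj] at hs'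
    exact hb.2.2 i hi j hj ((hg.2 i hi).symm.trans (hs'.trans (hg.2 j hj)))

theorem el_symm {d e : RD} (h : El m d e) : El m e d := Relation.EqvGen.symm _ _ h

theorem el_trans {d e f : RD} (h : El m d e) (h' : El m e f) : El m d f :=
  Relation.EqvGen.trans _ _ _ h h'

theorem el_refl (d : RD) : El m d d := Relation.EqvGen.refl _

theorem el_mv {d e : RD} (hd : Val m d) (he : Val m e) (h : Mv m d e) : El m d e :=
  Relation.EqvGen.rel _ _ ⟨hd, he, Or.inl h⟩

/-- (1) -/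
theorem gd_BC (hR : S_REAL) {v : Br} (hv : v ∈ BC m (m + k)) (hg : Gd m k b g) :
    Gd m k b (v * g) := by
  obtain ⟨R1, R2, R3, R4, -⟩ := hR
  refine ⟨mul_mem (R4 _ _ hv) hg.1, fun j hj => ?_⟩
  have h1 : (pm v)⁻¹ j = j := by
    have := R3 m (m + k) v⁻¹ (inv_mem hv) j hj
    rwa [map_inv] at this
  rw [map_mul, mul_inv_rev, Equiv.Perm.mul_apply, h1]
  exact hg.2 j hj

theorem el_BC (hR : S_REAL) (hb : Val m ⟨k, b⟩) {v : Br} (hv : v ∈ BC m (m + k))
    (hg : Gd m k b g) : El m ⟨k, g * b * g⁻¹⟩ ⟨k, (v * g) * b * (v * g)⁻¹⟩ := by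
  refine el_mv (val_conj hR hb hg) (val_conj hR hb (gd_BC hR hv hg)) ?_
  have h := Mv.conj (m := m) k (g * b * g⁻¹) v hv
  have e : v * (g * b * g⁻¹) * v⁻¹ = (v * g) * b * (v * g)⁻¹ := by group
  rwa [e] at h

/-- (2) -/
theorem el_c (hR : S_REAL) (hk : 1 ≤ k) (hb : Val m ⟨k, b⟩) {c : Br} {i : ℕ} (hi : i < m)
    (hc : c ∈ BN (m + 1)) (hpc : pm c = Equiv.swap i m) (hg : Gd m k b g)
    (hcg : Gd m k b (c * g)) : El m ⟨k, g * b * g⁻¹⟩ ⟨k, (c * g) * b * (c * g)⁻¹⟩ := by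
  refine Relation.EqvGen.rel _ _ ⟨val_conj hR hb hg, val_conj hR hb hcg, Or.inr ?_⟩
  refine ⟨hk, rfl, i, hi, c, hc, hpc, ?_⟩
  show (c * g) * b * (c * g)⁻¹ = c * (g * b * g⁻¹) * c⁻¹
  group

theorem gd_of_pm {w : Br} (hw : w ∈ BN (m + k)) (hp : pm w = 1) (hg : Gd m k b g) :
    Gd m k b (w * g) := by
  refine ⟨mul_mem hw hg.1, fun j hj => ?_⟩
  rw [map_mul, hp, one_mul]
  exact hg.2 j hj

/-- (3) -/
theorem el_pure (hR : S_REAL) (hk : 1 ≤ k) (hb : Val m ⟨k, b⟩) {z : Br} (hz : z ∈ PN (m + 1))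
    (hg : Gd m k b g) : El m ⟨k, g * b * g⁻¹⟩ ⟨k, (z * g) * b * (z * g)⁻¹⟩ := by
  have hR' := hR
  obtain ⟨R1, R2, R3, R4, R5, R6, R7, R8, R9, R10⟩ := hR
  have hzN : z ∈ BN (m + k) := R5 (m + 1) (m + k) (by omega) hz.2
  have hzp : pm z = 1 := hz.1
  have hzg : Gd m k b (z * g) := gd_of_pm hzN hzp hg
  -- the component of the strand `m`
  have h1 : (pm g)⁻¹ m < m + k := by
    have := R2 (m + k) g⁻¹ (inv_mem hg.1) m (by omega)
    rwa [map_inv] at this
  obtain ⟨i, hi, hs⟩ := hb.2.1 _ h1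
  obtain ⟨c, hc0, hpc⟩ := R8 0 (m + 1) (Equiv.swap i m) (fun a ha => absurd ha (Nat.not_lt_zero a))
    (fun a ha => Equiv.swap_apply_of_ne_of_ne (by omega) (by omega))
  have hc : c ∈ BN (m + 1) := R4 _ _ hc0
  have hgood : ∀ u : Br, u ∈ BN (m + k) → pm u = Equiv.swap i m → Gd m k b (u * g) := by
    intro u hu hpu
    refine ⟨mul_mem hu hg.1, fun j hj => ?_⟩
    rw [map_mul, mul_inv_rev, Equiv.Perm.mul_apply, hpu, Equiv.swap_inv]
    by_cases hji : j = i
    · subst hji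
      rw [Equiv.swap_apply_left]
      exact hs.symm
    · rw [Equiv.swap_apply_of_ne_of_ne hji (by omega)]
      exact hg.2 j hj
  have hcN : c ∈ BN (m + k) := R5 (m + 1) (m + k) (by omega) hc
  have hczp : pm (c * z) = Equiv.swap i m := by rw [map_mul, hzp, mul_one, hpc]
  have hcz : Gd m k b ((c * z) * g) := hgood (c * z) (mul_mem hcN hzN) hczp
  have e1 := el_c hR' hk hb hi (mul_mem hc hz.2) hczp hg hcz
  have hcz' : Gd m k b (c * (z * g)) := by rwa [← mul_assoc]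
  have e2 := el_c hR' hk hb hi hc hpc hzg hcz'
  rw [← mul_assoc c z g] at e2
  exact el_trans e1 (el_symm e2)

theorem dn_add (i a c : ℕ) : dn i (a + c) = dn (i + a) c * dn i a := by
  induction c with
  | zero => simp [dn]
  | succ c ih =>
    show s (i + (a + c)) * dn i (a + c) = s (i + a + c) * dn (i + a) c * dn i a
    rw [ih, ← mul_assoc, add_assoc]

theorem dn_mem_BC {m N : ℕ} (i : ℕ) (hi : m ≤ i) : ∀ t, i + t < N → dn i t ∈ BC m N := by
  intro t
  induction t with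
  | zero => intro _; exact one_mem _
  | succ t ih =>
    intro h
    exact mul_mem (Subgroup.subset_closure ⟨i + t, by omega, by omega, rfl⟩) (ih (by omega))

theorem s_mem_BC {m N i : ℕ} (h : m ≤ i) (h' : i + 1 < N) : s i ∈ BC m N :=
  Subgroup.subset_closure ⟨i, h, h', rfl⟩

theorem Ag_mem_BC {m N i t : ℕ} (hi : m ≤ i) (h : i + 1 + t < N) : Ag i t ∈ BC m N :=
  mul_mem (mul_mem (dn_mem_BC (i + 1) (by omega) t h) (pow_mem (s_mem_BC hi (by omega)) 2))
    (inv_mem (dn_mem_BC (i + 1) (by omega) t h))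

theorem pm_Ag (i t : ℕ) : pm (Ag i t) = 1 := by
  unfold Ag
  rw [map_mul, map_mul, map_inv, map_pow, pm_s, pow_two, Equiv.swap_mul_self, mul_one,
    mul_inv_cancel]

/-- (4) for the generators -/
theorem el_Ag (hR : S_REAL) (hk : 1 ≤ k) (hb : Val m ⟨k, b⟩) {i t : ℕ} (h : i + 1 + t < m + k)
    (hg : Gd m k b g) : El m ⟨k, g * b * g⁻¹⟩ ⟨k, (Ag i t * g) * b * (Ag i t * g)⁻¹⟩ := by
  have hR' := hR
  obtain ⟨R1, R2, R3, R4, -⟩ := hR
  by_cases h1 : m ≤ i
  · exact el_BC hR' hb (Ag_mem_BC h1 h) hg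
  · by_cases h2 : i + 1 + t ≤ m
    · refine el_pure hR' hk hb ⟨pm_Ag i t, ?_⟩ hg
      exact R4 0 (m + 1) (Ag_mem_BC (Nat.zero_le i) (by omega))
    · obtain ⟨t', ht'⟩ : ∃ t', i + 1 + t' = m := ⟨m - (i + 1), by omega⟩
      obtain ⟨r, hr⟩ : ∃ r, t = t' + r := ⟨t - t', by omega⟩
      subst hr
      have hv : dn m r ∈ BC m (m + k) := dn_mem_BC m le_rfl r (by omega)
      have e : Ag i (t' + r) = dn m r * Ag i t' * (dn m r)⁻¹ := by
        unfold Ag
        rw [dn_add, ht']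
        group
      have hz : Ag i t' ∈ PN (m + 1) :=
        ⟨pm_Ag i t', R4 0 (m + 1) (Ag_mem_BC (Nat.zero_le i) (by omega))⟩
      have g1 := gd_BC hR' (inv_mem hv) hg
      have s1 := el_BC hR' hb (inv_mem hv) hg
      have s2 := el_pure hR' hk hb hz g1
      have hzN : Ag i t' ∈ BN (m + k) := R4 0 _ (Ag_mem_BC (Nat.zero_le i) (by omega))
      have g2 : Gd m k b (Ag i t' * ((dn m r)⁻¹ * g)) := gd_of_pm hzN (pm_Ag i t') g1
      have s3 := el_BC hR' hb hv g2
      have e2 : dn m r * (Ag i t' * ((dn m r)⁻¹ * g)) = Ag i (t' + r) * g := by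
        rw [e]; group
      rw [e2] at s3
      exact el_trans s1 (el_trans s2 s3)

/-- (4) -/
theorem el_PN (hR : S_REAL) (hPu : S_PURE) (hk : 1 ≤ k) (hb : Val m ⟨k, b⟩) {w : Br}
    (hw : w ∈ PN (m + k)) : ∀ g, Gd m k b g →
      Gd m k b (w * g) ∧ El m ⟨k, g * b * g⁻¹⟩ ⟨k, (w * g) * b * (w * g)⁻¹⟩ := by
  have R4 := hR.2.2.2.1
  have h := hPu (m + k) hw
  clear hw
  induction h using Subgroup.closure_induction with
  | mem x hx =>
    obtain ⟨i, t, hit, rfl⟩ := hx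
    intro g hg
    refine ⟨gd_of_pm ?_ (pm_Ag i t) hg, el_Ag hR hk hb hit hg⟩
    exact R4 0 _ (Ag_mem_BC (Nat.zero_le i) (by omega))
  | one =>
    intro g hg
    rw [one_mul]
    exact ⟨hg, el_refl _⟩
  | mul x y _ _ ihx ihy =>
    intro g hg
    obtain ⟨h1, h2⟩ := ihy g hg
    obtain ⟨h3, h4⟩ := ihx _ h1
    rw [mul_assoc]
    exact ⟨h3, el_trans h2 h4⟩
  | inv x hx ih =>
    intro g hg
    have hxP : pm x = 1 ∧ x ∈ BN (m + k) := by
      refine ⟨?_, ?_⟩
      · have : Subgroup.closure {x | ∃ i t, i + 1 + t < m + k ∧ x = Ag i t} ≤ pm.ker := by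
          rw [Subgroup.closure_le]
          rintro _ ⟨i, t, _, rfl⟩
          exact pm_Ag i t
        exact this hx
      · have : Subgroup.closure {x | ∃ i t, i + 1 + t < m + k ∧ x = Ag i t} ≤ BN (m + k) := by
          rw [Subgroup.closure_le]
          rintro _ ⟨i, t, _, rfl⟩
          exact R4 0 _ (Ag_mem_BC (Nat.zero_le i) (by omega))
        exact this hx
    have hg' : Gd m k b (x⁻¹ * g) :=
      gd_of_pm (inv_mem hxP.2) (by rw [map_inv, hxP.1, inv_one]) hg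
    obtain ⟨_, h2⟩ := ih _ hg'
    rw [mul_inv_cancel_left] at h2
    exact ⟨hg', el_symm h2⟩

theorem el_fix (hR : S_REAL) (hPu : S_PURE) (hk : 1 ≤ k) (hb : Val m ⟨k, b⟩) {w : Br}
    (hw : w ∈ BN (m + k)) (hfix : ∀ j < m, pm w j = j) (hg : Gd m k b g) :
    El m ⟨k, g * b * g⁻¹⟩ ⟨k, (w * g) * b * (w * g)⁻¹⟩ := by
  have hR' := hR
  obtain ⟨R1, R2, R3, R4, R5, R6, R7, R8, R9, R10⟩ := hR
  obtain ⟨v, hv, hpv⟩ := R8 m (m + k) (pm w) hfix (fun a ha => R1 _ w hw a ha)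
  have hwv : w * v⁻¹ ∈ PN (m + k) := by
    refine ⟨?_, (BN (m + k)).mul_mem hw ((BN (m + k)).inv_mem (R4 _ _ hv))⟩
    show pm (w * v⁻¹) = 1
    rw [map_mul, map_inv, hpv, mul_inv_cancel]
  have s1 := el_BC hR' hb hv hg
  have s2 := (el_PN hR' hPu hk hb hwv (v * g) (gd_BC hR' hv hg)).2
  have e : w * v⁻¹ * (v * g) = w * g := by group
  rw [e] at s2
  exact el_trans s1 s2

/-- (5) -/
theorem el_main (hR : S_REAL) (hPu : S_PURE) (hk : 1 ≤ k) (hb : Val m ⟨k, b⟩)
    (hg : Gd m k b g) : El m ⟨k, b⟩ ⟨k, g * b * g⁻¹⟩ := by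
  have hR' := hR
  obtain ⟨R1, R2, R3, R4, R5, R6, R7, R8, R9, R10⟩ := hR
  have key : ∀ i, i ≤ m → ∃ g1, Gd m k b g1 ∧ El m ⟨k, b⟩ ⟨k, g1 * b * g1⁻¹⟩ ∧
      ∀ j < i, (pm g1)⁻¹ j = (pm g)⁻¹ j := by
    intro i
    induction i with
    | zero =>
      intro _
      refine ⟨1, ⟨one_mem _, fun j _ => ?_⟩, ?_, fun j hj => absurd hj (Nat.not_lt_zero j)⟩
      · rw [map_one, inv_one]; exact Equiv.Perm.SameCycle.refl _ _
      · have e : (1 : Br) * b * (1 : Br)⁻¹ = b := by group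
        rw [e]; exact el_refl _
    | succ i ih =>
      intro hi
      obtain ⟨g1, hg1, hel, hag⟩ := ih (by omega)
      set p := (pm g)⁻¹ i with hp
      by_cases hpe : (pm g1)⁻¹ i = p
      · refine ⟨g1, hg1, hel, fun j hj => ?_⟩
        rcases Nat.lt_succ_iff_lt_or_eq.mp hj with h | h
        · exact hag j h
        · rw [h]; exact hpe
      · have hpN : p < m + k := by
          have := R2 (m + k) g⁻¹ (inv_mem hg.1) i (by omega)
          rwa [map_inv] at this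
        set q := pm g1 p with hq
        have hqN : q < m + k := R2 (m + k) g1 hg1.1 p hpN
        have hqp : (pm g1)⁻¹ q = p := by rw [hq]; simp
        have hqm : m ≤ q := by
          by_contra hcon
          push Not at hcon
          have h1 := hg1.2 q hcon
          rw [hqp] at h1
          have h2 := hg.2 i (by omega)
          have h3 := hb.2.2 i (by omega) q hcon (h2.symm.trans h1)
          rw [h3] at hpe
          exact hpe hqp
        obtain ⟨v, hv, hpv⟩ := R8 m (m + k) (Equiv.swap q m)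
          (fun a ha => Equiv.swap_apply_of_ne_of_ne (by omega) (by omega))
          (fun a ha => Equiv.swap_apply_of_ne_of_ne (by omega) (by omega))
        obtain ⟨c, hc0, hpc⟩ := R8 0 (m + 1) (Equiv.swap i m)
          (fun a ha => absurd ha (Nat.not_lt_zero a))
          (fun a ha => Equiv.swap_apply_of_ne_of_ne (by omega) (by omega))
        have hc : c ∈ BN (m + 1) := R4 _ _ hc0
        have hcN : c ∈ BN (m + k) := R5 (m + 1) (m + k) (by omega) hc
        have hvg := gd_BC hR' hv hg1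
        have hinv : ∀ j, (pm (c * (v * g1)))⁻¹ j =
            (pm g1)⁻¹ (Equiv.swap q m (Equiv.swap i m j)) := by
          intro j
          rw [map_mul, map_mul, hpc, hpv, mul_inv_rev, mul_inv_rev, Equiv.swap_inv,
            Equiv.swap_inv]
          rfl
        have hother : ∀ j < m, j ≠ i → (pm (c * (v * g1)))⁻¹ j = (pm g1)⁻¹ j := by
          intro j hj hji
          rw [hinv, Equiv.swap_apply_of_ne_of_ne hji (by omega),
            Equiv.swap_apply_of_ne_of_ne (by omega) (by omega)]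
        have hat : (pm (c * (v * g1)))⁻¹ i = p := by
          rw [hinv, Equiv.swap_apply_left, Equiv.swap_apply_right, hqp]
        have hgood : Gd m k b (c * (v * g1)) := by
          refine ⟨mul_mem hcN hvg.1, fun j hj => ?_⟩
          by_cases hji : j = i
          · rw [hji, hat]; exact hg.2 i (by omega)
          · rw [hother j hj hji]; exact hg1.2 j hj
        refine ⟨c * (v * g1), hgood, ?_, fun j hj => ?_⟩
        · exact el_trans hel (el_trans (el_BC hR' hb hv hg1)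
            (el_c hR' hk hb (by omega) hc hpc hvg hgood))
        · rcases Nat.lt_succ_iff_lt_or_eq.mp hj with h | h
          · rw [hother j (by omega) (by omega)]; exact hag j h
          · rw [h]; exact hat
  obtain ⟨g1, hg1, hel, hag⟩ := key m le_rfl
  have hw : g * g1⁻¹ ∈ BN (m + k) := mul_mem hg.1 (inv_mem hg1.1)
  have hfix : ∀ j < m, pm (g * g1⁻¹) j = j := by
    intro j hj
    rw [map_mul, map_inv, Equiv.Perm.mul_apply, hag j hj]
    simp
  have s1 := el_fix hR' hPu hk hb hw hfix hg1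
  have e : g * g1⁻¹ * g1 = g := by group
  rw [e] at s1
  exact el_trans hel s1

/-- T13 -/
theorem t_CUT (hR : S_REAL) (hM : S_MUL) (hPu : S_PURE) : S_CUT := by
  intro m k b g hm hb hgN hgc
  have hg : Gd m k b g := ⟨hgN, hgc⟩
  refine ⟨val_conj hR hb hg, ?_⟩
  rcases Nat.eq_zero_or_pos k with hk | hk
  · subst hk
    obtain ⟨R1, R2, R3, R4, R5, -⟩ := id hR
    -- stabilise first
    have m1 := Mv.stab (m := m) 0 b 1 (by omega) hb.1 (one_mem _)
    have m2 := Mv.stab (m := m) 0 (g * b) g⁻¹ (by omega) (mul_mem hgN hb.1) (inv_mem hgN)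
    rw [mul_one, mul_one] at m1
    have v1 : Val m ⟨0 + 1, b * s (m + 0 - 1)⟩ := hM.2.1 m _ _ hb m1
    have v2 : Val m ⟨0 + 1, g * b * s (m + 0 - 1) * g⁻¹⟩ := hM.2.1 m _ _ (val_conj hR hb hg) m2
    have hfixb : ∀ i < m, ∀ j < m, (pm b).SameCycle i j → i = j := hb.2.2
    have hG : ∀ j < m, (pm g)⁻¹ j = j := by
      intro j hj
      have h1 : (pm g)⁻¹ j < m := by
        have := R2 (m + 0) g⁻¹ (inv_mem hgN) j (by omega)
        rw [map_inv] at this
        exact this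
      exact hfixb _ h1 j hj (hgc j hj)
    have g1 : Gd m 1 (b * s (m + 0 - 1)) g := by
      refine ⟨R5 (m + 0) (m + 1) (by omega) hgN, fun j hj => ?_⟩
      rw [hG j hj]
    have s1 := el_main hR hPu le_rfl (v1 : Val m ⟨1, b * s (m + 0 - 1)⟩) g1
    have e : g * (b * s (m + 0 - 1)) * g⁻¹ = g * b * s (m + 0 - 1) * g⁻¹ := by group
    rw [e] at s1
    exact el_trans (el_mv hb v1 m1) (el_trans s1 (el_symm (el_mv (val_conj hR hb hg) v2 m2)))
  · exact el_main hR hPu hk hb hg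

end Pool.Agent.K1H47.LK
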